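import Pool.Agent.H92HM.Defs

set_option autoImplicit false

open MeasureTheory Filter Topology
open scoped ENNReal NNReal BigOperators

namespace Pool.Agent.H92HM

/-! ### One step of play -/

/-- the rule after the first answer `x` -/
def tl (s : Rule) (x : Bool) : Rule := fun l => s (x :: l)

lemma answers_succ (s : Rule) (h : unitInterval) (n : ℕ) :
    answers s h (n + 1) = answer (s []) h :: answers (tl s (answer (s []) h)) h n := by
  induction n with
  | zero => simp [answers]
  | succ n ih =>
    rw [answers, ih]
    conv_rhs => rw [answers]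
    simp [tl]

lemma guessAt_zero (s : Rule) (h : unitInterval) : guessAt s h 0 = s [] := rfl

lemma guessAt_succ (s : Rule) (h : unitInterval) (n : ℕ) :
    guessAt s h (n + 1) = guessAt (tl s (answer (s []) h)) h n := by
  rw [guessAt, answers_succ, guessAt, tl]

lemma ofReal_abs (g h : unitInterval) :
    ENNReal.ofReal |(g : ℝ) - (h : ℝ)| = (nndist g h : ℝ≥0∞) := by
  rw [← Real.dist_eq, ← Subtype.dist_eq, ← coe_nndist, ENNReal.ofReal_coe_nnreal]

/-- summand of the payoff -/
noncomputable def term (s : Rule) (h : unitInterval) (n : ℕ) : ℝ≥0∞ :=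
  if (∃ i < n, guessAt s h i = h) then 0 else (nndist (guessAt s h n) h : ℝ≥0∞)

lemma payoff_eq (s : Rule) (h : unitInterval) : payoff s h = ∑' n, term s h n := by
  unfold payoff term
  simp only [ofReal_abs]

lemma term_zero (s : Rule) (h : unitInterval) : term s h 0 = (nndist (s []) h : ℝ≥0∞) := by
  simp [term, guessAt_zero]

lemma term_succ (s : Rule) (h : unitInterval) (n : ℕ) (h0 : s [] ≠ h) :
    term s h (n + 1) = term (tl s (answer (s []) h)) h n := by
  unfold term
  have : (∃ i < n + 1, guessAt s h i = h) ↔
      ∃ i < n, guessAt (tl s (answer (s []) h)) h i = h := by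
    constructor
    · rintro ⟨i, hi, e⟩
      cases i with
      | zero => exact absurd e h0
      | succ i => exact ⟨i, by omega, by rw [← guessAt_succ]; exact e⟩
    · rintro ⟨i, hi, e⟩
      exact ⟨i + 1, by omega, by rw [guessAt_succ]; exact e⟩
  simp only [this, guessAt_succ]

lemma term_succ_of_eq (s : Rule) (h : unitInterval) (n : ℕ) (h0 : s [] = h) :
    term s h (n + 1) = 0 := by
  unfold term
  rw [if_pos]
  exact ⟨0, by omega, h0⟩

lemma payoff_of_eq (s : Rule) (h : unitInterval) (h0 : s [] = h) : payoff s h = 0 := by
  rw [payoff_eq, ENNReal.tsum_eq_zero]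
  intro n
  cases n with
  | zero => simp [term_zero, h0]
  | succ n => exact term_succ_of_eq s h n h0

lemma payoff_step (s : Rule) (h : unitInterval) (h0 : s [] ≠ h) :
    payoff s h = (nndist (s []) h : ℝ≥0∞) + payoff (tl s (answer (s []) h)) h := by
  rw [payoff_eq, payoff_eq, tsum_eq_zero_add' ENNReal.summable, term_zero]
  congr 1
  exact tsum_congr fun n => term_succ s h n h0

lemma payoff_lt (s : Rule) (h : unitInterval) (h0 : s [] < h) :
    payoff s h = (nndist (s []) h : ℝ≥0∞) + payoff (tl s true) h := by
  rw [payoff_step s h h0.ne, answer, if_pos h0]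

lemma payoff_gt (s : Rule) (h : unitInterval) (h0 : h < s []) :
    payoff s h = (nndist (s []) h : ℝ≥0∞) + payoff (tl s false) h := by
  rw [payoff_step s h h0.ne', answer, if_neg (not_lt.2 h0.le)]

/-! ### Functionals of a finite part of the play -/

/-- A functional of the first `n` steps of play: cost `A` of each guess, final value `B`,
weight `c` of the event that the guess is too low (and the reversed weight for too high). -/
noncomputable def T (A B c : unitInterval → unitInterval → ℝ≥0) :
    ℕ → Rule → unitInterval → ℝ≥0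
  | 0, s, h => B (s []) h
  | n + 1, s, h => A (s []) h +
      (c (s []) h * T A B c n (tl s true) h + c h (s []) * T A B c n (tl s false) h)

/-- exact weight -/
noncomputable def cI (g h : unitInterval) : ℝ≥0 := if g < h then 1 else 0

/-- continuous weights -/
noncomputable def cK (k : ℕ) (g h : unitInterval) : ℝ≥0 :=
  min 1 (k * Real.toNNReal ((h : ℝ) - g))

lemma cK_le (k : ℕ) (g h : unitInterval) : cK k g h ≤ cI g h := by
  unfold cK cI
  split_ifs with hg
  · exact min_le_left _ _
  · have : Real.toNNReal ((h : ℝ) - g) = 0 := by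
      rw [Real.toNNReal_eq_zero]
      have : (h : ℝ) ≤ g := not_lt.1 hg
      linarith
    simp [this]

lemma cK_eventually (g h : unitInterval) : ∀ᶠ k in atTop, cK k g h = cI g h := by
  unfold cK cI
  split_ifs with hg
  · have hpos : (0 : ℝ) < (h : ℝ) - g := by
      have : (g : ℝ) < h := hg
      linarith
    obtain ⟨N, hN⟩ := exists_nat_gt (1 / ((h : ℝ) - g))
    filter_upwards [eventually_ge_atTop N] with k hk
    rw [min_eq_left]
    rw [← NNReal.coe_le_coe, NNReal.coe_mul, Real.coe_toNNReal _ hpos.le]
    push_cast
    have h1 : (1 : ℝ) / ((h : ℝ) - g) ≤ k := hN.le.trans (by exact_mod_cast hk)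
    rw [div_le_iff₀ hpos] at h1
    exact h1
  · have : Real.toNNReal ((h : ℝ) - g) = 0 := by
      rw [Real.toNNReal_eq_zero]
      have : (h : ℝ) ≤ g := not_lt.1 hg
      linarith
    simp [this]

lemma continuous_cK (k : ℕ) :
    Continuous fun p : unitInterval × unitInterval => cK k p.1 p.2 := by
  unfold cK
  fun_prop

lemma continuous_tl (x : Bool) : Continuous fun s : Rule => tl s x := by
  unfold tl
  fun_prop

lemma measurable_tl (x : Bool) : Measurable fun s : Rule => tl s x := by
  unfold tl
  fun_prop

lemma continuous_T (A B c : unitInterval → unitInterval → ℝ≥0)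
    (hA : Continuous fun p : unitInterval × unitInterval => A p.1 p.2)
    (hB : Continuous fun p : unitInterval × unitInterval => B p.1 p.2)
    (hc : Continuous fun p : unitInterval × unitInterval => c p.1 p.2) (n : ℕ) :
    Continuous fun p : Rule × unitInterval => T A B c n p.1 p.2 := by
  have h0 : Continuous fun p : Rule × unitInterval => p.1 [] := by fun_prop
  have h1 : Continuous fun p : Rule × unitInterval => (p.1 [], p.2) := by fun_prop
  have h2 : Continuous fun p : Rule × unitInterval => (p.2, p.1 []) := by fun_prop
  have h3 : ∀ x : Bool, Continuous fun p : Rule × unitInterval => (tl p.1 x, p.2) := fun x =>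
    ((continuous_tl x).comp continuous_fst).prodMk continuous_snd
  induction n with
  | zero => exact hB.comp h1
  | succ n ih =>
    exact (hA.comp h1).add (((hc.comp h1).mul (ih.comp (h3 true))).add
      ((hc.comp h2).mul (ih.comp (h3 false))))

lemma measurable_T (A B c : unitInterval → unitInterval → ℝ≥0)
    (hA : Measurable fun p : unitInterval × unitInterval => A p.1 p.2)
    (hB : Measurable fun p : unitInterval × unitInterval => B p.1 p.2)
    (hc : Measurable fun p : unitInterval × unitInterval => c p.1 p.2) (n : ℕ) :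
    Measurable fun p : Rule × unitInterval => T A B c n p.1 p.2 := by
  have h1 : Measurable fun p : Rule × unitInterval => (p.1 [], p.2) := by fun_prop
  have h2 : Measurable fun p : Rule × unitInterval => (p.2, p.1 []) := by fun_prop
  have h3 : ∀ x : Bool, Measurable fun p : Rule × unitInterval => (tl p.1 x, p.2) := fun x =>
    ((measurable_tl x).comp measurable_fst).prodMk measurable_snd
  induction n with
  | zero => exact hB.comp h1
  | succ n ih =>
    exact (hA.comp h1).add (((hc.comp h1).mul (ih.comp (h3 true))).add
      ((hc.comp h2).mul (ih.comp (h3 false))))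

lemma measurable_cI : Measurable fun p : unitInterval × unitInterval => cI p.1 p.2 := by
  unfold cI
  exact Measurable.ite (measurableSet_lt measurable_fst measurable_snd) measurable_const
    measurable_const

lemma T_eventually (A : unitInterval → unitInterval → ℝ≥0)
    (B : ℕ → unitInterval → unitInterval → ℝ≥0) (B' : unitInterval → unitInterval → ℝ≥0)
    (hB : ∀ g h, ∀ᶠ k in atTop, B k g h = B' g h) (n : ℕ) (s : Rule) (h : unitInterval) :
    ∀ᶠ k in atTop, T A (B k) (cK k) n s h = T A B' cI n s h := by
  induction n generalizing s with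
  | zero => exact hB _ _
  | succ n ih =>
    filter_upwards [ih (tl s true), ih (tl s false), cK_eventually (s []) h,
      cK_eventually h (s [])] with k h1 h2 h3 h4
    simp only [T, h1, h2, h3, h4]

lemma T_le (A : unitInterval → unitInterval → ℝ≥0)
    (B B' : unitInterval → unitInterval → ℝ≥0)
    (hB : ∀ g h, B g h ≤ B' g h) (k : ℕ) (n : ℕ) (s : Rule) (h : unitInterval) :
    T A B (cK k) n s h ≤ T A B' cI n s h := by
  induction n generalizing s with
  | zero => exact hB _ _
  | succ n ih =>
    simp only [T]
    gcongr
    · exact cK_le _ _ _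
    · exact ih _
    · exact cK_le _ _ _
    · exact ih _

/-- partial payoffs -/
noncomputable def pp (n : ℕ) (s : Rule) (h : unitInterval) : ℝ≥0 :=
  T (fun g h => nndist g h) (fun _ _ => 0) cI n s h

lemma pp_zero (s : Rule) (h : unitInterval) : pp 0 s h = 0 := rfl

lemma pp_lt (n : ℕ) (s : Rule) (h : unitInterval) (h0 : s [] < h) :
    pp (n + 1) s h = nndist (s []) h + pp n (tl s true) h := by
  simp [pp, T, cI, h0, h0.not_gt]

lemma pp_gt (n : ℕ) (s : Rule) (h : unitInterval) (h0 : h < s []) :
    pp (n + 1) s h = nndist (s []) h + pp n (tl s false) h := by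
  simp [pp, T, cI, h0, h0.not_gt]

lemma pp_of_eq (n : ℕ) (s : Rule) (h : unitInterval) (h0 : s [] = h) :
    pp (n + 1) s h = 0 := by
  simp [pp, T, cI, h0]

lemma sum_term (n : ℕ) (s : Rule) (h : unitInterval) :
    ∑ i ∈ Finset.range n, term s h i = (pp n s h : ℝ≥0∞) := by
  induction n generalizing s with
  | zero => simp [pp_zero]
  | succ n ih =>
    rw [Finset.sum_range_succ']
    rcases lt_trichotomy (s []) h with h0 | h0 | h0
    · simp only [term_succ s h _ h0.ne, term_zero, ih, pp_lt n s h h0]
      simp [answer, h0, add_comm]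
    · simp only [term_succ_of_eq s h _ h0, term_zero, pp_of_eq n s h h0]
      simp [h0]
    · simp only [term_succ s h _ h0.ne', term_zero, ih, pp_gt n s h h0]
      simp [answer, h0.not_gt, add_comm]

lemma payoff_eq_iSup (s : Rule) (h : unitInterval) :
    payoff s h = ⨆ n, (pp n s h : ℝ≥0∞) := by
  rw [payoff_eq, ENNReal.tsum_eq_iSup_nat]
  simp only [sum_term]

lemma pp_mono (s : Rule) (h : unitInterval) : Monotone fun n => pp n s h := by
  intro m n hmn
  have : (pp m s h : ℝ≥0∞) ≤ pp n s h := by
    rw [← sum_term, ← sum_term]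
    exact Finset.sum_le_sum_of_subset (by simpa using hmn)
  exact_mod_cast this

lemma pp_le_payoff (n : ℕ) (s : Rule) (h : unitInterval) : (pp n s h : ℝ≥0∞) ≤ payoff s h := by
  rw [payoff_eq_iSup]
  exact le_iSup (fun n => (pp n s h : ℝ≥0∞)) n

lemma measurable_pp (n : ℕ) :
    Measurable fun p : Rule × unitInterval => pp n p.1 p.2 :=
  measurable_T _ _ _ measurable_nndist measurable_const measurable_cI n

lemma measurable_payoff : Measurable fun p : Rule × unitInterval => payoff p.1 p.2 := by
  simp only [payoff_eq_iSup]
  exact Measurable.iSup fun n => (measurable_pp n).coe_nnreal_ennreal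

lemma nndist_le_one (g h : unitInterval) : nndist g h ≤ 1 := by
  rw [← NNReal.coe_le_coe, coe_nndist, Subtype.dist_eq, Real.dist_eq, abs_le]
  have := g.2.1; have := g.2.2; have := h.2.1; have := h.2.2
  constructor <;> simp <;> linarith

lemma pp_le (n : ℕ) (s : Rule) (h : unitInterval) : pp n s h ≤ n := by
  induction n generalizing s with
  | zero => simp [pp_zero]
  | succ n ih =>
    rcases lt_trichotomy (s []) h with h0 | h0 | h0
    · rw [pp_lt n s h h0, add_comm]
      push_cast
      exact add_le_add (ih _) (nndist_le_one _ _)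
    · rw [pp_of_eq n s h h0]; positivity
    · rw [pp_gt n s h h0, add_comm]
      push_cast
      exact add_le_add (ih _) (nndist_le_one _ _)

/-! ### The simulation lemma -/

lemma sim (a : unitInterval → unitInterval) (h z : unitInterval) (lam : ℝ≥0)
    (h1 : ∀ g, a g < h → g < z) (h2 : ∀ g, h < a g → z < g)
    (h3 : ∀ g, nndist (a g) h ≤ lam * nndist g z) (s : Rule) :
    payoff (fun l => a (s l)) h ≤ lam * payoff s z := by
  have key : ∀ n, ∀ s : Rule, pp n (fun l => a (s l)) h ≤ lam * pp n s z := by
    intro n
    induction n with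
    | zero => intro s; simp [pp_zero]
    | succ n ih =>
      intro s
      rcases lt_trichotomy (a (s [])) h with h0 | h0 | h0
      · rw [pp_lt n _ h h0, pp_lt n s z (h1 _ h0), mul_add]
        exact add_le_add (h3 _) (ih (tl s true))
      · rw [pp_of_eq n _ h h0]; positivity
      · rw [pp_gt n _ h h0, pp_gt n s z (h2 _ h0), mul_add]
        exact add_le_add (h3 _) (ih (tl s false))
  rw [payoff_eq_iSup]
  refine iSup_le fun n => ?_
  calc (pp n (fun l => a (s l)) h : ℝ≥0∞) ≤ ((lam * pp n s z : ℝ≥0) : ℝ≥0∞) := by
        exact_mod_cast key n s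
    _ = lam * (pp n s z : ℝ≥0∞) := by push_cast; rfl
    _ ≤ lam * payoff s z := by gcongr; exact pp_le_payoff _ _ _

/-! ### The combinator `cons` and bisection -/

/-- the rule with first guess `g`, continuing with `t` after too low and `f` after too high -/
def cons (g : unitInterval) (t f : Rule) : Rule
  | [] => g
  | true :: l => t l
  | false :: l => f l

lemma payoff_cons_lt (g : unitInterval) (t f : Rule) (h : unitInterval) (h0 : g < h) :
    payoff (cons g t f) h = (nndist g h : ℝ≥0∞) + payoff t h :=
  payoff_lt (cons g t f) h h0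

lemma payoff_cons_gt (g : unitInterval) (t f : Rule) (h : unitInterval) (h0 : h < g) :
    payoff (cons g t f) h = (nndist g h : ℝ≥0∞) + payoff f h :=
  payoff_gt (cons g t f) h h0

lemma payoff_cons_eq (g : unitInterval) (t f : Rule) (h : unitInterval) (h0 : g = h) :
    payoff (cons g t f) h = 0 :=
  payoff_of_eq (cons g t f) h h0

lemma cons_tl (s : Rule) : cons (s []) (tl s true) (tl s false) = s := by
  funext l
  match l with
  | [] => rfl
  | true :: l => rfl
  | false :: l => rfl

/-- midpoint -/
noncomputable def mid (a b : unitInterval) : unitInterval :=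
  ⟨((a : ℝ) + b) / 2, by
    have := a.2.1; have := a.2.2; have := b.2.1; have := b.2.2
    constructor <;> linarith⟩

lemma coe_mid (a b : unitInterval) : (mid a b : ℝ) = ((a : ℝ) + b) / 2 := rfl

/-- bisection of `[a,b]` -/
noncomputable def bis (a b : unitInterval) (l : List Bool) : unitInterval :=
  let st := l.foldl (fun (st : unitInterval × unitInterval) (x : Bool) =>
    if x then (mid st.1 st.2, st.2) else (st.1, mid st.1 st.2)) (a, b)
  mid st.1 st.2

lemma bis_nil (a b : unitInterval) : bis a b [] = mid a b := rfl

lemma tl_bis_true (a b : unitInterval) : tl (bis a b) true = bis (mid a b) b := rfl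

lemma tl_bis_false (a b : unitInterval) : tl (bis a b) false = bis a (mid a b) := rfl

lemma coe_nndist_I (g h : unitInterval) : (nndist g h : ℝ) = |(g : ℝ) - h| := by
  rw [coe_nndist, Subtype.dist_eq, Real.dist_eq]

lemma pp_bis (n : ℕ) (a b h : unitInterval) (ha : a ≤ h) (hb : h ≤ b) :
    (pp n (bis a b) h : ℝ) ≤ (b : ℝ) - a := by
  induction n generalizing a b with
  | zero =>
    simp only [pp_zero, NNReal.coe_zero]
    have h1 : (a : ℝ) ≤ h := ha
    have h2 : (h : ℝ) ≤ b := hb
    linarith
  | succ n ih =>
    have h1 : (a : ℝ) ≤ h := ha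
    have h2 : (h : ℝ) ≤ b := hb
    rcases lt_trichotomy (bis a b []) h with h0 | h0 | h0
    · rw [pp_lt n _ h h0, tl_bis_true]
      have := ih (mid a b) b h0.le hb
      rw [NNReal.coe_add, coe_nndist_I, bis_nil]
      have h3 : (mid a b : ℝ) < h := h0
      rw [abs_of_neg (by linarith)]
      rw [coe_mid] at *
      linarith
    · rw [pp_of_eq n _ h h0, NNReal.coe_zero]
      linarith
    · rw [pp_gt n _ h h0, tl_bis_false]
      have := ih a (mid a b) ha h0.le
      rw [NNReal.coe_add, coe_nndist_I, bis_nil]
      have h3 : (h : ℝ) < mid a b := h0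
      rw [abs_of_pos (by linarith)]
      rw [coe_mid] at *
      linarith

lemma payoff_bis (a b h : unitInterval) (ha : a ≤ h) (hb : h ≤ b) :
    payoff (bis a b) h ≤ ENNReal.ofReal ((b : ℝ) - a) := by
  rw [payoff_eq_iSup]
  refine iSup_le fun n => ?_
  have := pp_bis n a b h ha hb
  rw [← ENNReal.ofReal_coe_nnreal]
  exact ENNReal.ofReal_le_ofReal this

end Pool.Agent.H92HM
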