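import Mathlib

set_option autoImplicit false

open MeasureTheory Filter Topology
open scoped ENNReal

namespace Pool.Agent.H92HM

/-- A pure strategy of Red: the guess made after the answers received so far
(in the order received). -/
abbrev Rule : Type := List Bool → unitInterval

/-- The answer to the guess `g` when the secret is `h`: `true` iff the guess is too low. -/
noncomputable def answer (g h : unitInterval) : Bool := if g < h then true else false

/-- The answers received before guess number `n` when the rule `s` is played against the
secret `h` (in the order received). -/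
noncomputable def answers (s : Rule) (h : unitInterval) : ℕ → List Bool
  | 0 => []
  | n + 1 => answers s h n ++ [answer (s (answers s h n)) h]

/-- Guess number `n` (counted from `0`) when `s` is played against `h`. -/
noncomputable def guessAt (s : Rule) (h : unitInterval) (n : ℕ) : unitInterval :=
  s (answers s h n)

/-- The payoff `P = ∑ |g_n - h|`, summed over all guesses made; play stops once a guess is `h`. -/
noncomputable def payoff (s : Rule) (h : unitInterval) : ℝ≥0∞ :=
  ∑' n : ℕ, if (∃ i < n, guessAt s h i = h) then 0
    else ENNReal.ofReal |(guessAt s h n : ℝ) - (h : ℝ)|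

/-- The expected payoff of the hider strategy `ν` against the mixed search strategy `σ`. -/
noncomputable def expPayoff (ν : ProbabilityMeasure unitInterval) (σ : ProbabilityMeasure Rule) :
    ℝ≥0∞ :=
  ∫⁻ s, ∫⁻ h, payoff s h ∂(ν : Measure unitInterval) ∂(σ : Measure Rule)

/-- What the hider strategy `ν` guarantees: the infimum over mixed strategies of Red. -/
noncomputable def guarantee (ν : ProbabilityMeasure unitInterval) : ℝ≥0∞ :=
  ⨅ σ : ProbabilityMeasure Rule, expPayoff ν σ

/-- The hider's maximin value. -/
noncomputable def maximin : ℝ≥0∞ :=
  ⨆ ν : ProbabilityMeasure unitInterval, guarantee ν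

/-- `ν` is an optimal hider strategy. -/
def IsOptimal (ν : ProbabilityMeasure unitInterval) : Prop :=
  guarantee ν = maximin

/-- The dyadic grid of level `k` in `[0,1]`. -/
def grid (k : ℕ) : Set unitInterval := {x | ∃ j : ℕ, (x : ℝ) = (j : ℝ) / 2 ^ k}

/-- `ν` is optimal in the finite game in which the hider is restricted to the dyadic grid of
level `k`, up to the error `ε`. -/
def IsGridOptimal (k : ℕ) (ε : ℝ≥0∞) (ν : ProbabilityMeasure unitInterval) : Prop :=
  (ν : Measure unitInterval) (grid k)ᶜ = 0 ∧
    ∀ ν' : ProbabilityMeasure unitInterval, (ν' : Measure unitInterval) (grid k)ᶜ = 0 →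
      guarantee ν' ≤ guarantee ν + ε

end Pool.Agent.H92HM
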