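import Pool.Agent.H92HM.Support

set_option autoImplicit false

open MeasureTheory Filter Topology
open scoped ENNReal NNReal BigOperators

namespace Pool.Agent.H92HM

/-! ### Reflection -/

noncomputable def rfl' (s : Rule) : Rule := fun l => unitInterval.symm (s (l.map not))

lemma tl_rfl' (s : Rule) (b : Bool) : tl (rfl' s) b = rfl' (tl s (!b)) := rfl

lemma nndist_symm (g h : unitInterval) :
    nndist (unitInterval.symm g) h = nndist g (unitInterval.symm h) := by
  apply NNReal.eq
  rw [coe_nndist_I, coe_nndist_I, unitInterval.coe_symm_eq, unitInterval.coe_symm_eq, ← abs_neg]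
  congr 1
  ring

lemma pp_rfl' (n : ℕ) (s : Rule) (h : unitInterval) :
    pp n (rfl' s) h = pp n s (unitInterval.symm h) := by
  induction n generalizing s with
  | zero => rfl
  | succ n ih =>
    have e : rfl' s [] = unitInterval.symm (s []) := rfl
    rcases lt_trichotomy (rfl' s []) h with h0 | h0 | h0
    · have h1 : unitInterval.symm h < s [] := by
        rw [e] at h0; exact unitInterval.symm_lt_comm.1 h0
      rw [pp_lt n _ _ h0, pp_gt n _ _ h1, tl_rfl', ih, e, nndist_symm]
      rfl
    · have h1 : s [] = unitInterval.symm h := by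
        rw [← h0, e, unitInterval.symm_symm]
      rw [pp_of_eq n _ _ h0, pp_of_eq n _ _ h1]
    · have h1 : s [] < unitInterval.symm h := by
        rw [e] at h0; exact unitInterval.lt_symm_comm.1 h0
      rw [pp_gt n _ _ h0, pp_lt n _ _ h1, tl_rfl', ih, e, nndist_symm]
      rfl

lemma payoff_rfl' (s : Rule) (h : unitInterval) :
    payoff (rfl' s) h = payoff s (unitInterval.symm h) := by
  rw [payoff_eq_iSup, payoff_eq_iSup]
  simp only [pp_rfl']

lemma W_map_symm (ν : Measure unitInterval) : W ν ≤ W (ν.map unitInterval.symm) := by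
  refine le_iInf fun s => ?_
  rw [lintegral_map (measurable_payoff_right s) unitInterval.continuous_symm.measurable]
  simp only [← payoff_rfl']
  exact W_le ν _

theorem exists_symm_optimal : ∃ μ : ProbabilityMeasure unitInterval,
    W (μ : Measure unitInterval) = maximin ∧
    (μ : Measure unitInterval).map unitInterval.symm = (μ : Measure unitInterval) := by
  obtain ⟨μ, hμ⟩ := exists_optimal
  set m : Measure unitInterval := (μ : Measure unitInterval) with hm
  have hms : Measurable unitInterval.symm := unitInterval.continuous_symm.measurable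
  have hpm : IsProbabilityMeasure (m.map unitInterval.symm) :=
    Measure.isProbabilityMeasure_map hms.aemeasurable
  set a : Measure unitInterval := (2⁻¹ : ℝ≥0∞) • (m + m.map unitInterval.symm) with ha
  have hpa : IsProbabilityMeasure a := by
    constructor
    rw [ha, Measure.smul_apply, Measure.add_apply, measure_univ, measure_univ, smul_eq_mul,
      one_add_one_eq_two]
    exact ENNReal.inv_mul_cancel (by norm_num) (by norm_num)
  refine ⟨⟨a, hpa⟩, ?_, ?_⟩
  · rw [ProbabilityMeasure.coe_mk]
    refine le_antisymm (W_le_maximin' a) (le_iInf fun s => ?_)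
    rw [ha, lintegral_smul_measure, lintegral_add_measure]
    have h1 : maximin ≤ ∫⁻ h, payoff s h ∂m := by rw [← hμ]; exact W_le _ _
    have h2 : maximin ≤ ∫⁻ h, payoff s h ∂(m.map unitInterval.symm) := by
      rw [← hμ]; exact (W_map_symm m).trans (W_le _ _)
    calc maximin = 2⁻¹ * (maximin + maximin) := by
          rw [← two_mul, ← mul_assoc, ENNReal.inv_mul_cancel (by norm_num) (by norm_num), one_mul]
      _ ≤ 2⁻¹ * (∫⁻ h, payoff s h ∂m + ∫⁻ h, payoff s h ∂(m.map unitInterval.symm)) := by
          gcongr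
      _ = _ := rfl
  · rw [ProbabilityMeasure.coe_mk, ha, Measure.map_smul, Measure.map_add _ _ hms,
      Measure.map_map hms hms]
    have : unitInterval.symm ∘ unitInterval.symm = id := by
      funext x; simp
    rw [this, Measure.map_id, add_comm]

/-! ### Value of the game -/

lemma exp_eq (ν : ProbabilityMeasure unitInterval) (σ : ProbabilityMeasure Rule) :
    expPayoff ν σ = ∫⁻ h, ∫⁻ s, payoff s h ∂(σ : Measure Rule) ∂(ν : Measure unitInterval) :=
  lintegral_lintegral_swap measurable_payoff.aemeasurable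

lemma exp_le (ν : ProbabilityMeasure unitInterval) (σ : ProbabilityMeasure Rule) (w : ℝ≥0∞)
    (hσ : ∀ h : unitInterval, ∫⁻ s, payoff s h ∂(σ : Measure Rule) ≤ w) :
    expPayoff ν σ ≤ w := by
  rw [exp_eq]
  calc _ ≤ ∫⁻ _, w ∂(ν : Measure unitInterval) := lintegral_mono fun h => hσ h
    _ = w := by simp

theorem minimax : ⨅ σ : ProbabilityMeasure Rule, ⨆ ν : ProbabilityMeasure unitInterval,
    expPayoff ν σ = maximin := by
  apply le_antisymm
  · obtain ⟨σ, hσ⟩ := exists_sigma
    exact (iInf_le _ σ).trans (iSup_le fun ν => exp_le ν σ _ hσ)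
  · exact iSup_iInf_le_iInf_iSup _

lemma bound_of_iSup (σ : ProbabilityMeasure Rule) (h : unitInterval) :
    ∫⁻ s, payoff s h ∂(σ : Measure Rule) ≤
      ⨆ ν : ProbabilityMeasure unitInterval, expPayoff ν σ := by
  refine le_trans ?_ (le_iSup _ ⟨Measure.dirac h, inferInstance⟩)
  unfold expPayoff
  rw [ProbabilityMeasure.coe_mk]
  refine lintegral_mono fun s => ?_
  rw [lintegral_dirac' _ (measurable_payoff_right s)]

/-- complementary slackness for the hider -/
theorem slack (μ : ProbabilityMeasure unitInterval)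
    (hμ : W (μ : Measure unitInterval) = maximin) (σ : ProbabilityMeasure Rule)
    (hσ : ∀ h : unitInterval, ∫⁻ s, payoff s h ∂(σ : Measure Rule) ≤ maximin) :
    ∀ᵐ h ∂(μ : Measure unitInterval), ∫⁻ s, payoff s h ∂(σ : Measure Rule) = maximin := by
  have hm : Measurable fun h : unitInterval => ∫⁻ s, payoff s h ∂(σ : Measure Rule) :=
    Measurable.lintegral_prod_left' measurable_payoff
  have h1 : ∫⁻ _, maximin ∂(μ : Measure unitInterval) ≤
      ∫⁻ h, ∫⁻ s, payoff s h ∂(σ : Measure Rule) ∂(μ : Measure unitInterval) := by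
    rw [← exp_eq]
    calc ∫⁻ _, maximin ∂(μ : Measure unitInterval) = maximin := by simp
      _ = W (μ : Measure unitInterval) := hμ.symm
      _ = guarantee μ := (iInf_exp μ).symm
      _ ≤ _ := iInf_le _ σ
  have h2 := ae_eq_of_ae_le_of_lintegral_le (μ := (μ : Measure unitInterval))
    (f := fun h => ∫⁻ s, payoff s h ∂(σ : Measure Rule)) (g := fun _ => maximin)
    (Eventually.of_forall hσ) ?_ aemeasurable_const h1
  · exact h2
  · refine ne_top_of_le_ne_top (b := maximin) maximin_ne_top ?_
    rw [← exp_eq]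
    exact exp_le μ σ _ hσ

/-! ### Dyadic grids -/

lemma grid_mono_succ (k : ℕ) : grid k ⊆ grid (k + 1) := by
  rintro x ⟨j, hj⟩
  refine ⟨2 * j, ?_⟩
  rw [hj, pow_succ]
  push_cast
  field_simp

lemma grid_mono : Monotone grid := monotone_nat_of_le_succ grid_mono_succ

lemma dense_grid : Dense (⋃ k, grid k) := by
  intro x
  have hx0 := x.2.1
  have hx1 := x.2.2
  have hmem : ∀ k : ℕ, (⌊(x : ℝ) * 2 ^ k⌋₊ : ℝ) / 2 ^ k ∈ unitInterval := by
    intro k
    constructor
    · positivity
    · rw [div_le_one (by positivity)]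
      calc (⌊(x : ℝ) * 2 ^ k⌋₊ : ℝ) ≤ x * 2 ^ k := Nat.floor_le (by positivity)
        _ ≤ 1 * 2 ^ k := by gcongr
        _ = 2 ^ k := one_mul _
  have hlim : Tendsto (fun k : ℕ => (⟨(⌊(x : ℝ) * 2 ^ k⌋₊ : ℝ) / 2 ^ k, hmem k⟩ : unitInterval))
      atTop (𝓝 x) := by
    rw [tendsto_subtype_rng]
    exact (tendsto_nat_floor_mul_div_atTop hx0).comp
      (tendsto_pow_atTop_atTop_of_one_lt (r := (2:ℝ)) (by norm_num))
  refine mem_closure_of_tendsto hlim (Eventually.of_forall fun k => ?_)
  exact Set.mem_iUnion.2 ⟨k, _, rfl⟩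

noncomputable def gv (k : ℕ) : ℝ≥0∞ :=
  ⨆ ν : {ν : ProbabilityMeasure unitInterval // (ν : Measure unitInterval) (grid k)ᶜ = 0},
    W (ν.1 : Measure unitInterval)

lemma gv_le (k : ℕ) : gv k ≤ maximin := iSup_le fun _ => W_le_maximin _

lemma gv_mono : Monotone gv := by
  intro k l hkl
  refine iSup_le fun ν => ?_
  have h : (ν.1 : Measure unitInterval) (grid l)ᶜ = 0 :=
    measure_mono_null (Set.compl_subset_compl.2 (grid_mono hkl)) ν.2
  exact le_iSup (fun ν : {ν : ProbabilityMeasure unitInterval //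
    (ν : Measure unitInterval) (grid l)ᶜ = 0} => W (ν.1 : Measure unitInterval)) ⟨ν.1, h⟩

lemma iSup_gv : ⨆ k, gv k = maximin := by
  set w := ⨆ k, gv k with hw
  have hwm : w ≤ maximin := iSup_le gv_le
  refine le_antisymm hwm ?_
  obtain ⟨σ, hσ⟩ := exists_sigma_gen (⋃ k, grid k) w (ne_top_of_le_ne_top maximin_ne_top hwm) (by
    rintro ν hν ⟨H, hHS, hH⟩
    have : ∃ k, (H : Set unitInterval) ⊆ grid k := by
      have h1 : (H : Set unitInterval).Finite := H.finite_toSet
      exact (DirectedOn.exists_mem_subset_of_finite_of_subset_sUnion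
        (c := Set.range grid) (Set.range_nonempty _)
        (directedOn_range.2 (grid_mono.directed_le)) h1
        (by rwa [Set.sUnion_range])).elim fun t ht => by
          obtain ⟨⟨k, rfl⟩, h2⟩ := ht
          exact ⟨k, h2⟩
    obtain ⟨k, hk⟩ := this
    have h2 : ν (grid k)ᶜ = 0 := measure_mono_null (Set.compl_subset_compl.2 hk) hH
    refine le_trans ?_ (le_iSup gv k)
    exact le_iSup (fun ν : {ν : ProbabilityMeasure unitInterval //
      (ν : Measure unitInterval) (grid k)ᶜ = 0} => W (ν.1 : Measure unitInterval))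
      ⟨⟨ν, hν⟩, h2⟩)
  have h3 : ∀ h, ∫⁻ s, payoff s h ∂(σ : Measure Rule) ≤ w := fun h =>
    payoff_le_of_pp _ h _ fun n => pp_bound_of_dense _ _ dense_grid w n (fun h hh => hσ h hh n) h
  rw [maximin_eq]
  refine iSup_le fun ν => ?_
  rw [← iInf_exp]
  exact (iInf_le _ σ).trans (exp_le ν σ w h3)

theorem grid_limit (ν : ℕ → ProbabilityMeasure unitInterval) (ε : ℕ → ℝ≥0∞)
    (hε : Tendsto ε atTop (𝓝 0)) (hν : ∀ k, IsGridOptimal k (ε k) (ν k)) :
    Tendsto (fun k => guarantee (ν k)) atTop (𝓝 maximin) := by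
  have h1 : Tendsto gv atTop (𝓝 maximin) := by
    rw [← iSup_gv]
    exact tendsto_atTop_iSup gv_mono
  have h2 : Tendsto (fun k => gv k - ε k) atTop (𝓝 (maximin - 0)) :=
    ENNReal.Tendsto.sub h1 hε (Or.inl maximin_ne_top)
  rw [tsub_zero] at h2
  refine tendsto_of_tendsto_of_tendsto_of_le_of_le h2 tendsto_const_nhds (fun k => ?_)
    (fun k => ?_)
  · show gv k - ε k ≤ guarantee (ν k)
    rw [tsub_le_iff_right]
    refine iSup_le fun ν' => ?_
    rw [← iInf_exp]
    exact (hν k).2 ν'.1 ν'.2
  · show guarantee (ν k) ≤ maximin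
    exact le_iSup guarantee (ν k)

end Pool.Agent.H92HM
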