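import Pool.Agent.H92HM.Atom

set_option autoImplicit false

open MeasureTheory Filter Topology
open scoped ENNReal NNReal BigOperators

namespace Pool.Agent.H92HM

/-! ### A cheap way to finish from a guess close to the secret -/

noncomputable def lo (c : unitInterval) (ε : ℝ≥0) : unitInterval :=
  Set.projIcc 0 1 zero_le_one ((c : ℝ) - ε)

noncomputable def hi (c : unitInterval) (ε : ℝ≥0) : unitInterval :=
  Set.projIcc 0 1 zero_le_one ((c : ℝ) + ε)

noncomputable def fin (c : unitInterval) (ε : ℝ≥0) : Rule :=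
  cons (lo c ε) (cons (hi c ε) (bis 0 1) (bis (lo c ε) (hi c ε))) (bis 0 1)

lemma payoff_cons_le (g : unitInterval) (t f : Rule) (h : unitInterval) (a : ℝ≥0∞)
    (ht : g < h → payoff t h ≤ a) (hf : h < g → payoff f h ≤ a) :
    payoff (cons g t f) h ≤ nndist g h + a := by
  rcases lt_trichotomy g h with h0 | h0 | h0
  · rw [payoff_cons_lt _ _ _ _ h0]
    gcongr
    exact ht h0
  · rw [payoff_cons_eq _ _ _ _ h0]
    exact zero_le
  · rw [payoff_cons_gt _ _ _ _ h0]
    gcongr
    exact hf h0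

lemma payoff_fin_le (c : unitInterval) (ε : ℝ≥0) (h : unitInterval) :
    payoff (fin c ε) h ≤ 3 := by
  have hn : ∀ g h : unitInterval, (nndist g h : ℝ≥0∞) ≤ 1 := fun g h => by
    exact_mod_cast nndist_le_one g h
  have h1 : payoff (fin c ε) h ≤ nndist (lo c ε) h + 2 := by
    refine payoff_cons_le _ _ _ _ _ (fun h1 => ?_)
      (fun _ => (payoff_bis_le_one h).trans (by norm_num))
    have h2 := payoff_cons_le (hi c ε) (bis 0 1) (bis (lo c ε) (hi c ε)) h 1
      (fun _ => payoff_bis_le_one h) (fun h2 => (payoff_bis _ _ h h1.le h2.le).trans (by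
        rw [← ENNReal.ofReal_one]
        apply ENNReal.ofReal_le_ofReal
        have := (hi c ε).2.2
        have := (lo c ε).2.1
        linarith))
    refine h2.trans ?_
    calc _ ≤ (1 : ℝ≥0∞) + 1 := by gcongr; exact hn _ _
      _ = 2 := by norm_num
  refine h1.trans ?_
  calc _ ≤ (1 : ℝ≥0∞) + 2 := by gcongr; exact hn _ _
    _ = 3 := by norm_num

lemma payoff_fin_near (c : unitInterval) (ε : ℝ≥0) (h : unitInterval)
    (hh : |(c : ℝ) - h| < ε) : payoff (fin c ε) h ≤ 4 * ε := by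
  have hc0 := c.2.1
  have hc1 := c.2.2
  have hh0 := h.2.1
  have hh1 := h.2.2
  rw [abs_lt] at hh
  have e0 : (0:ℝ) ≤ ε := ε.2
  have hlo : (lo c ε : ℝ) = max 0 ((c : ℝ) - ε) := by
    unfold lo
    rw [Set.coe_projIcc, min_eq_right (by linarith)]
  have hhi : (hi c ε : ℝ) = min 1 ((c : ℝ) + ε) := by
    unfold hi
    rw [Set.coe_projIcc, max_eq_right (le_min (by linarith) (by linarith))]
  have h1 : (lo c ε : ℝ) ≤ h := by rw [hlo]; exact max_le hh0 (by linarith)
  have h2 : (h : ℝ) ≤ hi c ε := by rw [hhi]; exact le_min hh1 (by linarith)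
  have h3 : (hi c ε : ℝ) - lo c ε ≤ 2 * ε := by
    rw [hlo, hhi]
    have := min_le_right 1 ((c : ℝ) + ε)
    have := le_max_right 0 ((c : ℝ) - ε)
    linarith
  have hn : ∀ g : unitInterval, (nndist g h : ℝ≥0∞) = ENNReal.ofReal |(g : ℝ) - h| := fun g =>
    (ofReal_abs g h).symm
  have h4 : payoff (cons (hi c ε) (bis 0 1) (bis (lo c ε) (hi c ε))) h ≤
      nndist (hi c ε) h + ENNReal.ofReal ((hi c ε : ℝ) - lo c ε) := by
    refine payoff_cons_le _ _ _ _ _ (fun h5 => ?_) (fun h5 => payoff_bis _ _ _ h1 h2)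
    exact absurd h5 (not_lt.2 h2)
  have h5 : payoff (fin c ε) h ≤ nndist (lo c ε) h +
      (nndist (hi c ε) h + ENNReal.ofReal ((hi c ε : ℝ) - lo c ε)) := by
    refine payoff_cons_le _ _ _ _ _ (fun _ => h4) (fun h5 => ?_)
    exact absurd h5 (not_lt.2 h1)
  refine h5.trans ?_
  rw [hn, hn, abs_of_nonpos (by linarith), abs_of_nonneg (by linarith),
    ← ENNReal.ofReal_add (by linarith) (by linarith),
    ← ENNReal.ofReal_add (by linarith) (by linarith)]
  calc _ ≤ ENNReal.ofReal (4 * ε) := ENNReal.ofReal_le_ofReal (by linarith)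
    _ = 4 * ε := by
      rw [ENNReal.ofReal_mul (by norm_num), ENNReal.ofReal_coe_nnreal]
      norm_num

/-- play `s` for `n` steps, then `fin` around the next guess of `s` -/
noncomputable def comb (ε : ℝ≥0) : ℕ → Rule → Rule
  | 0, s => fin (s []) ε
  | n + 1, s => cons (s []) (comb ε n (tl s true)) (comb ε n (tl s false))

noncomputable def Ac (g h : unitInterval) : ℝ≥0 := 1 - nndist g h
noncomputable def Bc (K : ℝ≥0) (g h : unitInterval) : ℝ≥0 := 3 - K * nndist g h

lemma continuous_Ac : Continuous fun p : unitInterval × unitInterval => Ac p.1 p.2 :=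
  continuous_const.sub continuous_nndist

lemma continuous_Bc (K : ℝ≥0) :
    Continuous fun p : unitInterval × unitInterval => Bc K p.1 p.2 :=
  continuous_const.sub (continuous_const.mul continuous_nndist)

lemma T_lt (A B : unitInterval → unitInterval → ℝ≥0) (n : ℕ) (s : Rule) (h : unitInterval)
    (h0 : s [] < h) : T A B cI (n + 1) s h = A (s []) h + T A B cI n (tl s true) h := by
  simp [T, cI, h0, h0.not_gt]

lemma T_gt (A B : unitInterval → unitInterval → ℝ≥0) (n : ℕ) (s : Rule) (h : unitInterval)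
    (h0 : h < s []) : T A B cI (n + 1) s h = A (s []) h + T A B cI n (tl s false) h := by
  simp [T, cI, h0, h0.not_gt]

lemma T_of_eq (A B : unitInterval → unitInterval → ℝ≥0) (n : ℕ) (s : Rule) (h : unitInterval)
    (h0 : s [] = h) : T A B cI (n + 1) s h = A (s []) h := by
  simp [T, cI, h0]

lemma nn_Ac (g h : unitInterval) : nndist g h + Ac g h = 1 := by
  unfold Ac
  exact add_tsub_cancel_of_le (nndist_le_one g h)

lemma payoff_comb (ε K : ℝ≥0) (hK : 3 ≤ K * ε) (n : ℕ) (s : Rule) (h : unitInterval) :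
    payoff (comb ε n s) h + (T Ac (Bc K) cI n s h : ℝ≥0∞) ≤ n + (3 + 4 * ε) := by
  induction n generalizing s with
  | zero =>
    rw [Nat.cast_zero, zero_add]
    show payoff (fin (s []) ε) h + ((Bc K (s []) h : ℝ≥0) : ℝ≥0∞) ≤ 3 + 4 * ε
    by_cases hh : |((s [] : unitInterval) : ℝ) - h| < ε
    · rw [add_comm]
      refine add_le_add ?_ (payoff_fin_near _ _ _ hh)
      have : Bc K (s []) h ≤ 3 := tsub_le_self
      exact_mod_cast this
    · have : Bc K (s []) h = 0 := by
        unfold Bc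
        rw [tsub_eq_zero_iff_le]
        refine hK.trans ?_
        gcongr
        rw [← NNReal.coe_le_coe, coe_nndist_I]
        exact not_lt.1 hh
      rw [this, ENNReal.coe_zero, add_zero]
      exact (payoff_fin_le _ _ _).trans le_self_add
  | succ n ih =>
    have e1 : (nndist (s []) h : ℝ≥0∞) + (Ac (s []) h : ℝ≥0∞) = 1 := by
      exact_mod_cast congrArg (fun x : ℝ≥0 => (x : ℝ≥0∞)) (nn_Ac (s []) h)
    rcases lt_trichotomy (s []) h with h0 | h0 | h0
    · rw [comb, payoff_cons_lt _ _ _ _ h0, T_lt _ _ _ _ _ h0, ENNReal.coe_add,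
        add_add_add_comm, e1]
      calc _ ≤ (1 : ℝ≥0∞) + (n + (3 + 4 * ε)) := add_le_add le_rfl (ih _)
        _ = _ := by push_cast; ring
    · rw [comb, payoff_cons_eq _ _ _ _ h0, T_of_eq _ _ _ _ _ h0, zero_add]
      have : Ac (s []) h ≤ 1 := tsub_le_self
      calc (Ac (s []) h : ℝ≥0∞) ≤ 1 := by exact_mod_cast this
        _ ≤ (n : ℝ≥0∞) + 1 := le_add_self
        _ ≤ _ := by push_cast; exact le_self_add
    · rw [comb, payoff_cons_gt _ _ _ _ h0, T_gt _ _ _ _ _ h0, ENNReal.coe_add,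
        add_add_add_comm, e1]
      calc _ ≤ (1 : ℝ≥0∞) + (n + (3 + 4 * ε)) := add_le_add le_rfl (ih _)
        _ = _ := by push_cast; ring

lemma lower (K : ℝ≥0) (n : ℕ) (s : Rule) (h : unitInterval) (hh : ∀ l, s l ≠ h) :
    (n : ℝ≥0) + 3 ≤ T Ac (Bc K) cI n s h +
      (pp n s h + K * T (fun _ _ => 0) (fun g h => nndist g h) cI n s h) := by
  induction n generalizing s with
  | zero =>
    rw [Nat.cast_zero, zero_add, pp_zero, zero_add]
    exact le_tsub_add
  | succ n ih =>
    have e1 := nn_Ac (s []) h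
    rcases lt_trichotomy (s []) h with h0 | h0 | h0
    · rw [T_lt _ _ _ _ _ h0, T_lt _ _ _ _ _ h0, pp_lt _ _ _ h0, zero_add]
      have := ih (tl s true) (fun l => hh _)
      calc ((n + 1 : ℕ) : ℝ≥0) + 3 = (nndist (s []) h + Ac (s []) h) + ((n : ℝ≥0) + 3) := by
            rw [e1]; push_cast; ring
        _ ≤ (nndist (s []) h + Ac (s []) h) + (T Ac (Bc K) cI n (tl s true) h +
            (pp n (tl s true) h + K * T (fun _ _ => 0) (fun g h => nndist g h) cI n (tl s true) h)) := by
            gcongr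
        _ = _ := by ring
    · exact absurd h0 (hh [])
    · rw [T_gt _ _ _ _ _ h0, T_gt _ _ _ _ _ h0, pp_gt _ _ _ h0, zero_add]
      have := ih (tl s false) (fun l => hh _)
      calc ((n + 1 : ℕ) : ℝ≥0) + 3 = (nndist (s []) h + Ac (s []) h) + ((n : ℝ≥0) + 3) := by
            rw [e1]; push_cast; ring
        _ ≤ (nndist (s []) h + Ac (s []) h) + (T Ac (Bc K) cI n (tl s false) h +
            (pp n (tl s false) h + K * T (fun _ _ => 0) (fun g h => nndist g h) cI n (tl s false) h)) := by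
            gcongr
        _ = _ := by ring

lemma T_term (n : ℕ) (s : Rule) (h : unitInterval) :
    (T (fun _ _ => 0) (fun g h => nndist g h) cI n s h : ℝ≥0∞) = term s h n := by
  induction n generalizing s with
  | zero => rw [term_zero]; rfl
  | succ n ih =>
    rcases lt_trichotomy (s []) h with h0 | h0 | h0
    · rw [T_lt _ _ _ _ _ h0, zero_add, ih, term_succ _ _ _ h0.ne, answer, if_pos h0]
    · rw [T_of_eq _ _ _ _ _ h0, term_succ_of_eq _ _ _ h0, ENNReal.coe_zero]
    · rw [T_gt _ _ _ _ _ h0, zero_add, ih, term_succ _ _ _ h0.ne', answer,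
        if_neg h0.not_gt]

lemma measurable_term (s : Rule) (n : ℕ) : Measurable fun h : unitInterval => term s h n := by
  simp only [← T_term]
  exact ((measurable_T _ _ _ measurable_const measurable_nndist measurable_cI n).comp
    (measurable_const.prodMk measurable_id)).coe_nnreal_ennreal

lemma T_Ac_le (K : ℝ≥0) (n : ℕ) (s : Rule) (h : unitInterval) :
    T Ac (Bc K) cI n s h ≤ n + 3 := by
  induction n generalizing s with
  | zero =>
    rw [Nat.cast_zero, zero_add]
    exact tsub_le_self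
  | succ n ih =>
    have hA : Ac (s []) h ≤ 1 := tsub_le_self
    push_cast
    rw [add_comm (n : ℝ≥0) 1, add_assoc]
    rcases lt_trichotomy (s []) h with h0 | h0 | h0
    · rw [T_lt _ _ _ _ _ h0]
      exact add_le_add hA (ih _)
    · rw [T_of_eq _ _ _ _ _ h0]
      exact hA.trans le_self_add
    · rw [T_gt _ _ _ _ _ h0]
      exact add_le_add hA (ih _)

section limit

variable {ι : Type*} {L : Filter ι} [L.NeBot] (ν : ι → ProbabilityMeasure unitInterval)
  (hW : Tendsto (fun i => W (ν i : Measure unitInterval)) L (𝓝 maximin))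

include hW in
lemma limit_bound (μ : ProbabilityMeasure unitInterval) (hμ : Tendsto ν L (𝓝 μ))
    (ε K : ℝ≥0) (hK : 3 ≤ K * ε) (n : ℕ) (s : Rule) :
    maximin + ∫⁻ h, (T Ac (Bc K) cI n s h : ℝ≥0∞) ∂(μ : Measure unitInterval) ≤
      n + (3 + 4 * ε) := by
  have hcont : ∀ k : ℕ, Continuous fun h : unitInterval => T Ac (Bc K) (cK k) n s h := fun k =>
    (continuous_T _ _ _ continuous_Ac (continuous_Bc K) (continuous_cK k) n).comp
      (continuous_const.prodMk continuous_id)
  have h1 : ∀ i, ∀ k : ℕ, W (ν i : Measure unitInterval) +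
      ∫⁻ h, (T Ac (Bc K) (cK k) n s h : ℝ≥0∞) ∂(ν i : Measure unitInterval) ≤
      n + (3 + 4 * ε) := by
    intro i k
    calc _ ≤ ∫⁻ h, payoff (comb ε n s) h ∂(ν i : Measure unitInterval) +
          ∫⁻ h, (T Ac (Bc K) cI n s h : ℝ≥0∞) ∂(ν i : Measure unitInterval) := by
          refine add_le_add (W_le _ _) (lintegral_mono fun h => ?_)
          exact ENNReal.coe_le_coe.2 (T_le _ _ _ (fun _ _ => le_refl _) k n s h)
      _ = ∫⁻ h, (payoff (comb ε n s) h + (T Ac (Bc K) cI n s h : ℝ≥0∞))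
            ∂(ν i : Measure unitInterval) := (lintegral_add_left (measurable_payoff_right _) _).symm
      _ ≤ ∫⁻ _, (n + (3 + 4 * ε) : ℝ≥0∞) ∂(ν i : Measure unitInterval) :=
          lintegral_mono fun h => payoff_comb ε K hK n s h
      _ = _ := by simp
  have h2 : ∀ k : ℕ, maximin +
      ∫⁻ h, (T Ac (Bc K) (cK k) n s h : ℝ≥0∞) ∂(μ : Measure unitInterval) ≤
      n + (3 + 4 * ε) := by
    intro k
    have hlim : Tendsto (fun i => W (ν i : Measure unitInterval) +
        ∫⁻ h, (T Ac (Bc K) (cK k) n s h : ℝ≥0∞) ∂(ν i : Measure unitInterval)) L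
        (𝓝 (maximin + ∫⁻ h, (T Ac (Bc K) (cK k) n s h : ℝ≥0∞) ∂(μ : Measure unitInterval))) :=
      hW.add (((continuous_lintegral_pm _ (hcont k)).tendsto μ).comp hμ)
    exact le_of_tendsto hlim (Eventually.of_forall fun i => h1 i k)
  have hle : maximin ≤ n + (3 + 4 * ε) :=
    maximin_le_one.trans (by
      calc (1 : ℝ≥0∞) ≤ 3 := by norm_num
        _ ≤ 3 + 4 * ε := le_self_add
        _ ≤ _ := le_add_self)
  have h3 : ∫⁻ h, (T Ac (Bc K) cI n s h : ℝ≥0∞) ∂(μ : Measure unitInterval) ≤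
      n + (3 + 4 * ε) - maximin := by
    refine lintegral_T_le _ _ (fun k h => T Ac (Bc K) (cK k) n s h)
      (fun k => (hcont k).measurable) (fun h => ?_) _ fun k => ?_
    · exact T_eventually _ (fun _ => Bc K) (Bc K)
        (fun _ _ => Eventually.of_forall fun _ => rfl) n s h
    · exact ENNReal.le_sub_of_add_le_left maximin_ne_top (h2 k)
  calc _ ≤ maximin + (n + (3 + 4 * ε) - maximin) := by gcongr
    _ = _ := add_tsub_cancel_of_le hle

include hW in
theorem limit_optimal (μ : ProbabilityMeasure unitInterval) (hμ : Tendsto ν L (𝓝 μ)) :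
    W (μ : Measure unitInterval) = maximin := by
  refine le_antisymm (W_le_maximin μ) (le_iInf fun s => ?_)
  set m : Measure unitInterval := (μ : Measure unitInterval) with hm
  have hatom : ∀ x, m {x} = 0 := fun x => limit_no_atom ν hW μ hμ x
  by_cases htop : ∫⁻ h, payoff s h ∂m = ∞
  · rw [htop]; exact le_top
  have hsum : ∑' n, ∫⁻ h, term s h n ∂m ≠ ∞ := by
    rw [← lintegral_tsum fun n => (measurable_term s n).aemeasurable]
    simpa only [payoff_eq] using htop
  have hterm := ENNReal.tendsto_atTop_zero_of_tsum_ne_top hsum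
  have hhit : ∀ᵐ h ∂m, ∀ l, s l ≠ h := by
    have hna : NullSingletonClass m := ⟨hatom⟩
    have : m (Set.range s) = 0 := (Set.countable_range s).measure_zero m
    rw [ae_iff]
    refine measure_mono_null ?_ this
    intro h hh
    simp only [Set.mem_ofPred_eq] at hh
    push Not at hh
    exact hh
  have hbound : ∀ ε : ℝ≥0, 0 < ε → ∀ n : ℕ, maximin ≤
      ∫⁻ h, payoff s h ∂m + ((3 / ε : ℝ≥0) * ∫⁻ h, term s h n ∂m + 4 * ε) := by
    intro ε hε n
    set K : ℝ≥0 := 3 / ε with hKdef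
    have hK : 3 ≤ K * ε := by rw [hKdef, div_mul_cancel₀ _ hε.ne']
    have h1 := limit_bound ν hW μ hμ ε K hK n s
    have hfin : ∫⁻ h, (T Ac (Bc K) cI n s h : ℝ≥0∞) ∂m ≠ ∞ := by
      have : ∫⁻ h, (T Ac (Bc K) cI n s h : ℝ≥0∞) ∂m ≤ ∫⁻ _, ((n + 3 : ℝ≥0) : ℝ≥0∞) ∂m :=
        lintegral_mono fun h => ENNReal.coe_le_coe.2 (T_Ac_le K n s h)
      refine ne_top_of_le_ne_top ?_ this
      simp
    have hmT : Measurable fun h : unitInterval => (T Ac (Bc K) cI n s h : ℝ≥0∞) :=
      ((measurable_T _ _ _ continuous_Ac.measurable (continuous_Bc K).measurable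
        measurable_cI n).comp (measurable_const.prodMk measurable_id)).coe_nnreal_ennreal
    have h2 : (n : ℝ≥0∞) + 3 ≤ ∫⁻ h, (T Ac (Bc K) cI n s h : ℝ≥0∞) ∂m +
        (∫⁻ h, payoff s h ∂m + (K : ℝ≥0∞) * ∫⁻ h, term s h n ∂m) := by
      calc (n : ℝ≥0∞) + 3 = ∫⁻ _, ((n : ℝ≥0∞) + 3) ∂m := by simp [hm]
        _ ≤ ∫⁻ h, ((T Ac (Bc K) cI n s h : ℝ≥0∞) + (payoff s h + (K : ℝ≥0∞) * term s h n)) ∂m := by
            refine lintegral_mono_ae ?_
            filter_upwards [hhit] with h hh
            have h3 := lower K n s h hh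
            have h4 : ((n : ℝ≥0∞) + 3) ≤ ((T Ac (Bc K) cI n s h +
              (pp n s h + K * T (fun _ _ => 0) (fun g h => nndist g h) cI n s h) : ℝ≥0) : ℝ≥0∞) := by
              exact_mod_cast h3
            refine h4.trans ?_
            rw [ENNReal.coe_add, ENNReal.coe_add, ENNReal.coe_mul, T_term]
            gcongr
            exact pp_le_payoff n s h
        _ = _ := by
            rw [lintegral_add_left hmT, lintegral_add_left (measurable_payoff_right s),
              lintegral_const_mul _ (measurable_term s n)]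
    have h5 : maximin + ∫⁻ h, (T Ac (Bc K) cI n s h : ℝ≥0∞) ∂m ≤
        (∫⁻ h, payoff s h ∂m + ((K : ℝ≥0∞) * ∫⁻ h, term s h n ∂m + 4 * ε)) +
        ∫⁻ h, (T Ac (Bc K) cI n s h : ℝ≥0∞) ∂m := by
      calc _ ≤ (n : ℝ≥0∞) + (3 + 4 * ε) := h1
        _ = ((n : ℝ≥0∞) + 3) + 4 * ε := by rw [add_assoc]
        _ ≤ (∫⁻ h, (T Ac (Bc K) cI n s h : ℝ≥0∞) ∂m +
            (∫⁻ h, payoff s h ∂m + (K : ℝ≥0∞) * ∫⁻ h, term s h n ∂m)) + 4 * ε := by gcongr
        _ = _ := by ring
    exact (ENNReal.add_le_add_iff_right hfin).1 h5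
  have hbound2 : ∀ ε : ℝ≥0, 0 < ε → maximin ≤ ∫⁻ h, payoff s h ∂m + 4 * ε := by
    intro ε hε
    have hlim : Tendsto (fun n => ∫⁻ h, payoff s h ∂m +
        ((3 / ε : ℝ≥0) * ∫⁻ h, term s h n ∂m + 4 * ε)) atTop
        (𝓝 (∫⁻ h, payoff s h ∂m + ((3 / ε : ℝ≥0) * 0 + 4 * ε))) := by
      refine tendsto_const_nhds.add (Tendsto.add ?_ tendsto_const_nhds)
      exact ENNReal.Tendsto.const_mul hterm (Or.inr ENNReal.coe_ne_top)
    rw [mul_zero, zero_add] at hlim
    exact ge_of_tendsto' hlim (hbound ε hε)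
  refine ENNReal.le_of_forall_pos_le_add fun ε hε _ => ?_
  have := hbound2 (ε / 4) (by positivity)
  refine this.trans (le_of_eq ?_)
  congr 1
  have : (4 : ℝ≥0) * (ε / 4) = ε := by
    rw [mul_comm, div_mul_cancel₀]
    norm_num
  exact_mod_cast this

end limit

end Pool.Agent.H92HM
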